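import Pool.Agent.Y742.HC.Stm0

/-! HC-PURE of helper742 (by helper161): fields of rational functions. -/

set_option autoImplicit false

namespace Pool.Agent.Y161.HC

open Pool.Agent.Y742.HC

theorem ratfunc_mem {k E : Type} [Field k] [Field E] [Algebra k E]
    (F : IntermediateField k (RatFunc E)) (hE : ∀ e : E, algebraMap E (RatFunc E) e ∈ F)
    (hX : (RatFunc.X : RatFunc E) ∈ F) : F = ⊤ := by
  rw [eq_top_iff]
  rintro z -
  have hp : ∀ p : Polynomial E, algebraMap (Polynomial E) (RatFunc E) p ∈ F := by
    intro p
    induction p using Polynomial.induction_on' with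
    | add p q hp hq =>
      rw [map_add]
      exact add_mem hp hq
    | monomial n a =>
      rw [← Polynomial.C_mul_X_pow_eq_monomial, map_mul, map_pow, RatFunc.algebraMap_X,
        RatFunc.algebraMap_C]
      refine mul_mem ?_ (pow_mem hX n)
      have h := hE a
      rwa [RatFunc.algebraMap_eq_C] at h
  obtain ⟨a, d, -, rfl⟩ := IsFractionRing.div_surjective (A := Polynomial E) (K := RatFunc E) z
  exact F.div_mem (hp a) (hp d)

/-- **HC-PURE.** -/
theorem sPure : SPure := by
  intro k E _ _ _ h
  obtain ⟨n, t, ht, had⟩ := h
  refine ⟨?_, n, ?_⟩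
  · have hy : AlgebraicIndependent E (fun _ : Fin 1 => (RatFunc.X : RatFunc E)) := by
      rw [algebraicIndependent_unique_type_iff]
      exact RatFunc.transcendental_X
    have hs := ht.sumElim_comp hy
    refine ⟨1 + n, (Sum.elim (fun _ : Fin 1 => (RatFunc.X : RatFunc E))
      (algebraMap E (RatFunc E) ∘ t)) ∘ finSumFinEquiv.symm,
      hs.comp _ finSumFinEquiv.symm.injective, ?_⟩
    rw [finSumFinEquiv.symm.surjective.range_comp]
    apply ratfunc_mem
    · intro e
      have he : e ∈ IntermediateField.adjoin k (Set.range t) := by
        rw [had]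
        exact IntermediateField.mem_top
      induction he using IntermediateField.adjoin_induction with
      | mem x hx =>
        obtain ⟨i, rfl⟩ := hx
        exact IntermediateField.subset_adjoin _ _ ⟨Sum.inr i, rfl⟩
      | algebraMap x =>
        rw [← IsScalarTower.algebraMap_apply k E (RatFunc E)]
        exact IntermediateField.algebraMap_mem _ _
      | add x y _ _ hx hy =>
        rw [map_add]
        exact add_mem hx hy
      | mul x y _ _ hx hy =>
        rw [map_mul]
        exact mul_mem hx hy
      | inv x _ hx =>
        rw [map_inv₀]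
        exact IntermediateField.inv_mem _ hx
    · exact IntermediateField.subset_adjoin _ _ ⟨Sum.inl 0, rfl⟩
  · exact ⟨(ht.aevalEquivField.symm.toAlgHom.comp
      (IntermediateField.equivOfEq had.symm).toAlgHom).comp
      (IntermediateField.topEquiv (F := k) (E := E)).symm.toAlgHom⟩

end Pool.Agent.Y161.HC
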